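import Pool.Agent.Lib.MP_748a56_lc.Blocks

/-! Goldstern's principle for all sets and `b < d` imply `b < r`. -/

open Set Filter
open Pool.Agent.Lib.MP_748a56_lc

namespace Pool.Agent.Results.MP_748a56_lc.ReapingBound

theorem result (h : GPall) (hbd : bNum < dNum) : bNum < rNum := by
  refine not_le.1 fun hle => ?_
  obtain ⟨H, hH, hu⟩ := exists_unb
  obtain ⟨R, hR, hi, hr⟩ : ∃ R : Set (Set ℕ), Cardinal.mk R = rNum ∧ (∀ A ∈ R, A.Infinite) ∧
      ∀ Y : Set ℕ, ∃ A ∈ R, ¬Splits Y A := by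
    refine csInf_mem (s := {c | ∃ R : Set (Set ℕ), Cardinal.mk R = c ∧ (∀ A ∈ R, A.Infinite) ∧
      ∀ Y : Set ℕ, ∃ A ∈ R, ¬Splits Y A}) ⟨_, {A | A.Infinite}, rfl, fun _ a => a, fun Y => ?_⟩
    by_cases k : Y.Infinite
    · exact ⟨Y, k, fun s => s.2 (by simp)⟩
    · exact ⟨univ, infinite_univ, fun s => k (s.1.mono inter_subset_right)⟩
  have hc : Cardinal.mk bNum.ord.ToType = bNum := Cardinal.mk_ord_toType _
  obtain ⟨eH⟩ := Cardinal.eq.1 (hc.trans hH.symm)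
  obtain ⟨A₀, hA₀, -⟩ := hr ∅
  have : Nonempty R := ⟨⟨A₀, hA₀⟩⟩
  obtain ⟨eR'⟩ := (Cardinal.le_def _ _).1 (hR.le.trans (hle.trans hc.ge))
  have heR := Function.invFun_surjective eR'.injective
  set eR := Function.invFun eR'
  have bd : ∀ w : bNum.ord.ToType → ℕ → ℕ, ∀ i, ∃ u, ∀ j ≤ i, LeStar (w j) u := by
    intro w i
    have k : Cardinal.mk (Iio i) < bNum := (Cardinal.mk_Iio_lt i (by simp)).trans_eq hc
    obtain ⟨u, hu⟩ := bdd_of_lt (F := w '' Iic i) (Cardinal.mk_image_le.trans_lt (by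
      rw [← Iio_insert]
      exact Cardinal.mk_insert_le.trans_lt (Cardinal.add_lt_of_lt aleph0_le_b k
        (Cardinal.one_lt_aleph0.trans_le aleph0_le_b))))
    exact ⟨u, fun j hj => hu _ (mem_image_of_mem _ hj)⟩
  choose nx hnx using fun i => exists_next (hi _ (eR i).2)
  choose u hu' using bd fun i => eH i
  choose v hv using bd nx
  obtain ⟨g, hg⟩ : ∃ g, ∀ i, (Lg g (v i)).Infinite := by
    by_contra a
    refine not_le.2 hbd ((dNum_le (F := range fun i n => maj (v i) (maj (v i) n))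
      fun g => ?_).trans (Cardinal.mk_range_le.trans hc.le))
    by_contra k
    exact a ⟨g, fun i s => k ⟨_, mem_range_self i, leStar_of_finite s⟩⟩
  refine not_gp (fun x => {Y | ∃ i, LeStar (u i) x ∧ ¬Splits Y (Lg g (nx i))})
    (fun x x' a Y ⟨i, k1, k2⟩ => ⟨i, k1.trans (Eventually.of_forall a), k2⟩)
    (fun x => ?_) (fun Y => ?_) h
  · obtain ⟨j, hj⟩ : ∃ j, ∀ i, LeStar (u i) x → i ≤ j := by
      by_contra a
      refine hu ⟨x, fun f hf => ?_⟩
      obtain ⟨j, hj⟩ := eH.surjective ⟨f, hf⟩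
      by_contra k
      refine a ⟨j, fun i s => not_lt.1 fun l => k ?_⟩
      have := (hu' i j l.le).trans s
      rwa [hj] at this
    exact ⟨_, hg j, fun Y ⟨i, k1, k2⟩ s => k2 (s.mono (Lg_diff g (hv j i (hj i k1))))⟩
  · obtain ⟨A, hA, k⟩ := hr (lab g ⁻¹' Y)
    obtain ⟨i, hi⟩ := heR ⟨A, hA⟩
    refine ⟨u i, i, Eventually.of_forall fun _ => le_rfl, fun s => k ?_⟩
    have := hnx i g Y s
    rwa [hi] at this

end Pool.Agent.Results.MP_748a56_lc.ReapingBound
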