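import Pool.Agent.Lib.MP_748a56_lc.Blocks

/-! Goldstern's principle for all sets implies `s ≤ b`. -/

open Set Filter
open Pool.Agent.Lib.MP_748a56_lc

namespace Pool.Agent.Results.MP_748a56_lc.SplittingBound

theorem result (h : GPall) : sNum ≤ bNum := by
  refine not_lt.1 fun hlt => not_gp (fun x => {Y | ∀ g ∈ exists_unb.choose, ¬Splits Y (Lg g x)})
    (fun x x' a Y hY g hg k => hY g hg (k.mono (Lg_diff g (Eventually.of_forall a))))
    (fun x => ?_) (fun Y => ?_) h
  · by_contra a
    refine exists_unb.choose_spec.2 ⟨_, fun g hg => leStar_of_finite (x := x) ?_⟩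
    exact not_infinite.1 fun k => a ⟨_, k, fun Y hY => hY g hg⟩
  · by_contra a
    refine not_le.2 hlt ((sNum_le (S := (fun g => lab g ⁻¹' Y) '' exists_unb.choose)
      fun A hA => ?_).trans (Cardinal.mk_image_le.trans exists_unb.choose_spec.1.le))
    obtain ⟨x, hx⟩ := exists_next hA
    by_contra k
    exact a ⟨x, fun g hg s => k ⟨_, mem_image_of_mem _ hg, hx g Y s⟩⟩

end Pool.Agent.Results.MP_748a56_lc.SplittingBound
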